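import Pool.Agent.helper48.EXI.Spec1

/-!
# MP_8f32d0, block EXI, row PAI: pairing of indices
-/

set_option autoImplicit false

namespace EXI

open scoped Classical
open AN

noncomputable section

theorem PAI : PAI_stmt := by
  intro g hg i j l hij hil hjl
  obtain ⟨n, rfl⟩ : ∃ n, g = n + 1 := ⟨g - 1, by omega⟩
  have h3 : ({i, j, l} : Finset (Fin (2 * (n + 1) + 1))).card = 3 := Finset.card_eq_three.2 ⟨i, j, l, hij, hil, hjl, rfl⟩
  have hS : (Finset.univ \ ({i, j, l} : Finset (Fin (2 * (n + 1) + 1)))).card = 2 * n := by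
    have h4 := Finset.card_sdiff_add_card_eq_card (Finset.subset_univ ({i, j, l} : Finset (Fin (2 * (n + 1) + 1))))
    rw [h3, Finset.card_univ, Fintype.card_fin] at h4
    omega
  have σ : Fin n × Bool ≃ {x // x ∈ Finset.univ \ ({i, j, l} : Finset (Fin (2 * (n + 1) + 1)))} :=
    (((Equiv.refl (Fin n)).prodCongr finTwoEquiv.symm).trans finProdFinEquiv).trans ((finCongr (Nat.mul_comm n 2)).trans (Finset.equivFinOfCardEq hS).symm)
  refine ⟨Fin.cons (i, i) fun m => ((σ (m, false) : Fin (2 * (n + 1) + 1)), (σ (m, true) : Fin (2 * (n + 1) + 1))), ?_⟩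
  intro T o τ t1 t2 t3 t4 v hv
  have hi : τ i = o := by
    have := t3 0 rfl
    rwa [Fin.cons_zero] at this
  have hp : ∀ m : Fin n, τ (σ (m, false)) = τ (σ (m, true)) := by
    intro m
    have := t4 m.succ (by rw [Fin.val_succ]; omega)
    rwa [Fin.cons_succ] at this
  have h5 : (Finset.univ.filter (fun a => τ a = v)).card =
      ∑ m : Fin n, ((if τ (σ (m, true)) = v then 1 else 0) + (if τ (σ (m, false)) = v then 1 else 0)) := by
    rw [Finset.card_filter, ← Finset.sum_sdiff (Finset.subset_univ ({i, j, l} : Finset (Fin (2 * (n + 1) + 1))))]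
    have h6 : ∑ x ∈ ({i, j, l} : Finset (Fin (2 * (n + 1) + 1))), (if τ x = v then 1 else 0) = 0 := by
      apply Finset.sum_eq_zero
      intro x hx
      rw [if_neg]
      rw [Finset.mem_insert, Finset.mem_insert, Finset.mem_singleton] at hx
      rcases hx with rfl | rfl | rfl
      · rw [hi]; exact hv.symm
      · rw [← t1, hi]; exact hv.symm
      · rw [← t2, hi]; exact hv.symm
    rw [h6, add_zero, ← Finset.sum_coe_sort, ← Equiv.sum_comp σ, Fintype.sum_prod_type]
    simp only [Fintype.sum_bool]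
  rw [h5]
  apply Finset.even_sum
  intro m _
  rw [hp m]
  exact ⟨_, rfl⟩

end

end EXI
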